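import Pool.Agent.W117.GS.Stm

/-! Decay of `exp (a v₀)`. -/

set_option autoImplicit false

namespace Pool.Agent.W563.GS.Dc

open Pool.Agent.W117.GS

/-- the point of `ℂ` -/
noncomputable def pt (p : ℝ × ℝ) : ℂ := ⟨p.1, p.2⟩

lemma sp_eq (p : ℝ × ℝ) (z : ℂ) : sp p (z.re, z.im) = ‖z - pt p‖ ^ 2 := by
  rw [Complex.sq_norm, Complex.normSq_apply]
  unfold sp pt
  simp only [Complex.sub_re, Complex.sub_im]
  ring

lemma key (M : ℕ) (hM : 1 ≤ M) (p : ℝ × ℝ) (z : ℂ) :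
    2 * Real.log (1 + ‖z‖) - (2 * Real.log 2 + 2 * Real.log (1 + ‖pt p‖)) ≤
      1 / M * Real.log (1 + sp p (z.re, z.im) ^ M) := by
  have hM0 : (0 : ℝ) < M := by exact_mod_cast hM
  set t : ℝ := ‖z - pt p‖ with ht
  have ht0 : 0 ≤ t := norm_nonneg _
  have hs : sp p (z.re, z.im) = t ^ 2 := sp_eq p z
  have h1 : 1 + ‖z‖ ≤ (1 + ‖pt p‖) * (1 + t) := by
    have h2 : ‖z‖ ≤ t + ‖pt p‖ := by
      calc ‖z‖ = ‖(z - pt p) + pt p‖ := by rw [sub_add_cancel]
        _ ≤ _ := norm_add_le _ _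
    have h3 : 0 ≤ ‖pt p‖ * t := by positivity
    nlinarith
  have hz0 : 0 < 1 + ‖z‖ := by positivity
  have hp0 : 0 < 1 + ‖pt p‖ := by positivity
  have h4 : Real.log (1 + ‖z‖) ≤ Real.log (1 + ‖pt p‖) + Real.log (1 + t) := by
    rw [← Real.log_mul hp0.ne' (by positivity)]
    exact Real.log_le_log hz0 h1
  have h5 : 2 * Real.log (1 + t) ≤ Real.log 2 + Real.log (1 + t ^ 2) := by
    have : 2 * Real.log (1 + t) = Real.log ((1 + t) ^ 2) := by
      rw [Real.log_pow]; norm_num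
    rw [this, ← Real.log_mul (by norm_num) (by positivity)]
    apply Real.log_le_log (by positivity)
    nlinarith [sq_nonneg (1 - t)]
  have h6 : (M : ℝ) * Real.log (1 + t ^ 2) ≤ M * Real.log 2 + Real.log (1 + (t ^ 2) ^ M) := by
    rw [← Real.log_pow, ← Real.log_pow, ← Real.log_mul (by positivity) (by positivity)]
    apply Real.log_le_log (by positivity)
    have h7 := add_pow_le (zero_le_one : (0 : ℝ) ≤ 1) (sq_nonneg t) M
    rw [one_pow] at h7
    refine h7.trans ?_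
    apply mul_le_mul_of_nonneg_right _ (by positivity)
    exact pow_le_pow_right₀ (by norm_num) (by omega)
  have h8 : Real.log (1 + t ^ 2) ≤ Real.log 2 + 1 / M * Real.log (1 + (t ^ 2) ^ M) := by
    have h9 : (M : ℝ) * Real.log (1 + t ^ 2) ≤
        M * (Real.log 2 + 1 / M * Real.log (1 + (t ^ 2) ^ M)) := by
      refine h6.trans (le_of_eq ?_)
      field_simp
    exact le_of_mul_le_mul_left h9 hM0
  rw [hs]
  linarith

theorem main : PropDC := by
  intro a S n M ha hM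
  set c : ℝ × ℝ → ℝ := fun p => 2 * Real.log 2 + 2 * Real.log (1 + ‖pt p‖) with hc
  refine ⟨Real.exp (a * ∑ p ∈ S, (n p : ℝ) * c p), fun z => ?_⟩
  have hz0 : 0 < 1 + ‖z‖ := by positivity
  rw [Real.rpow_def_of_pos hz0, ← Real.exp_add]
  unfold EE v0
  apply Real.exp_le_exp.2
  have h1 : ∑ p ∈ S, (n p : ℝ) * (2 * Real.log (1 + ‖z‖) - c p) ≤
      ∑ p ∈ S, (n p : ℝ) * (1 / M * Real.log (1 + sp p (z.re, z.im) ^ M)) :=
    Finset.sum_le_sum fun p _ => mul_le_mul_of_nonneg_left (key M hM p z) (Nat.cast_nonneg _)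
  have h2 : ∑ p ∈ S, (n p : ℝ) * (2 * Real.log (1 + ‖z‖) - c p)
      = (∑ p ∈ S, (n p : ℝ)) * (2 * Real.log (1 + ‖z‖)) - ∑ p ∈ S, (n p : ℝ) * c p := by
    rw [Finset.sum_mul, ← Finset.sum_sub_distrib]
    exact Finset.sum_congr rfl fun p _ => by ring
  rw [h2] at h1
  have h3 := mul_le_mul_of_nonneg_left h1 ha.le
  nlinarith

end Pool.Agent.W563.GS.Dc
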